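import Pool.Agent.H69.LQ.Lib
import Pool.Agent.H69.LQ.Targets1

set_option autoImplicit false

open MeasureTheory Metric Set
open scoped ENNReal
open Pool.Agent.H85.LK (E adm lam Ann)
open Pool.Agent.H69.LQ

namespace Pool.Agent.H86.LQ1

theorem GQ_fderiv {N : ℕ} (L : ℝ) (T x : E N) (j' : ℝ)
    (hj : HasDerivAt (J ((N : ℝ) / 2 + 1)) j' (L * ‖x‖ ^ 2 / 4)) :
    HasFDerivAt (gT L T : E N → ℝ)
      (innerSL ℝ (J ((N : ℝ) / 2 + 1) (L * ‖x‖ ^ 2 / 4) • T + (inner ℝ T x * (L / 2 * j')) • x)) x := by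
  have h1 : HasFDerivAt (fun y : E N => inner ℝ T y) (innerSL ℝ T) x :=
    (innerSL ℝ T).hasFDerivAt
  have h2 : HasFDerivAt (fun y : E N => ‖y‖ ^ 2) (2 • (innerSL ℝ x)) x :=
    (hasStrictFDerivAt_norm_sq x).hasFDerivAt
  have h3 : HasFDerivAt (fun y : E N => L * ‖y‖ ^ 2 / 4) ((L / 4) • (2 • (innerSL ℝ x))) x := by
    have := h2.const_mul (L / 4)
    refine this.congr_of_eventuallyEq (Filter.Eventually.of_forall fun y => ?_)
    show L * ‖y‖ ^ 2 / 4 = L / 4 * ‖y‖ ^ 2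
    ring
  have h4 : HasFDerivAt (fun y : E N => J ((N : ℝ) / 2 + 1) (L * ‖y‖ ^ 2 / 4))
      (j' • ((L / 4) • (2 • (innerSL ℝ x)))) x :=
    HasDerivAt.comp_hasFDerivAt (h₂ := J ((N : ℝ) / 2 + 1)) x hj h3
  have h5 := h1.mul h4
  have h6 : (inner ℝ T x) • (j' • ((L / 4) • (2 • (innerSL ℝ x)))) +
      J ((N : ℝ) / 2 + 1) (L * ‖x‖ ^ 2 / 4) • (innerSL ℝ T) =
      innerSL ℝ (J ((N : ℝ) / 2 + 1) (L * ‖x‖ ^ 2 / 4) • T + (inner ℝ T x * (L / 2 * j')) • x) := by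
    ext y
    simp only [add_apply, smul_apply, smul_eq_mul, innerSL_apply_apply,
      inner_add_left, inner_smul_left, nsmul_eq_mul]
    simp
    ring
  rw [← h6]
  exact h5

theorem GQ_norm {N : ℕ} (L : ℝ) (T x : E N) (j' : ℝ)
    (hj : HasDerivAt (J ((N : ℝ) / 2 + 1)) j' (L * ‖x‖ ^ 2 / 4)) :
    ‖fderiv ℝ (gT L T : E N → ℝ) x‖ ^ 2 =
      J ((N : ℝ) / 2 + 1) (L * ‖x‖ ^ 2 / 4) ^ 2 * ‖T‖ ^ 2 +
        inner ℝ T x ^ 2 * (J ((N : ℝ) / 2 + 1) (L * ‖x‖ ^ 2 / 4) * (L * j') +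
          (L / 2 * j') ^ 2 * ‖x‖ ^ 2) := by
  rw [(GQ_fderiv L T x j' hj).fderiv, innerSL_apply_norm, ← real_inner_self_eq_norm_sq]
  simp only [inner_add_left, inner_add_right, inner_smul_left, inner_smul_right,
    real_inner_self_eq_norm_sq, real_inner_comm T x]
  simp
  ring

theorem pf_GQ (hJS : T_JS) (hMC : T_MC) (hLF : T_LF) (hMO : T_MO) (hPH : T_PH) : T_GQ := by
  intro N L a T hN ha
  have hm : (0 : ℝ) < (N : ℝ) / 2 + 1 := by positivity
  have hNpos : (0 : ℝ) < N := by exact_mod_cast (by omega : 0 < N)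
  obtain ⟨js1, -, js3, -⟩ := hJS ((N : ℝ) / 2 + 1) hm
  obtain ⟨hph1, hph2, hph3⟩ := hPH N L hN
  have hcd : ContDiff ℝ (⊤ : ℕ∞) (gT L T : E N → ℝ) := by
    unfold gT
    refine ContDiff.mul ?_ (js1.comp ?_)
    · exact (innerSL ℝ T).contDiff
    · exact (contDiff_const.mul (contDiff_norm_sq ℝ)).div_const 4
  refine ⟨hcd, ?_⟩
  set m : ℝ := (N : ℝ) / 2 + 1 with hmdef
  set g : E N → ℝ := fun x => ‖fderiv ℝ (gT L T) x‖ ^ 2 - L * gT L T x ^ 2 with hg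
  have hgc : Continuous g := by
    have h1 : Continuous (fderiv ℝ (gT L T : E N → ℝ)) := hcd.continuous_fderiv (by simp)
    have h2 : Continuous (gT L T : E N → ℝ) := hcd.continuous
    rw [hg]
    fun_prop
  obtain ⟨mc1, -, mc3⟩ := hMC N g 0 a hN hgc le_rfl ha.le
  -- the radial profile
  set q : ℝ → ℝ := fun r => J m (L * r ^ 2 / 4) with hq
  have hqc : Continuous q := by
    rw [hq]
    exact js1.continuous.comp (by fun_prop)
  have hphq : ∀ r, ph N L 1 r = r * q r := by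
    intro r
    rw [hq, hmdef]
    unfold ph
    push_cast
    ring
  have hdphq : ∀ r, dph N L 1 r = q r + L * r ^ 2 / 2 * (-(J (m + 1) (L * r ^ 2 / 4) / m)) := by
    intro r
    rw [hq, hmdef]
    unfold dph
    push_cast
    ring
  have havT : av (fun θ : Sp N => inner ℝ T (θ : E N) ^ 2) = ‖T‖ ^ 2 / N :=
    (hLF N (fun _ => 0) T hN (BM_const 0)).2.2.2.2
  have hone : av (fun _ : Sp N => (1 : ℝ)) = 1 := (hMO N hN).1
  have havg : ∀ r, av (rs g r) =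
      ‖T‖ ^ 2 / N * (dph N L 1 r ^ 2 + ((N : ℝ) - 1) * q r ^ 2 - L * ph N L 1 r ^ 2) := by
    intro r
    have e : rs g r = fun θ : Sp N => (q r ^ 2 * ‖T‖ ^ 2) * 1 +
        (dph N L 1 r ^ 2 - q r ^ 2 - L * ph N L 1 r ^ 2) * inner ℝ T (θ : E N) ^ 2 := by
      funext θ
      show ‖fderiv ℝ (gT L T) (r • (θ : E N))‖ ^ 2 - L * gT L T (r • (θ : E N)) ^ 2 = _
      have hn : ‖r • (θ : E N)‖ ^ 2 = r ^ 2 := by rw [norm_smul_sp, sq_abs]
      rw [GQ_norm L T (r • (θ : E N)) _ (js3 _), gT_smul, hn, hdphq, hq, inner_smul_right]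
      ring
    rw [e, av_add (BM_const _) (((BM_inner T).pow 2).const_mul _), av_const_mul, av_const_mul,
      havT, hone]
    field_simp
    ring
  have hF0 : ∫ r in (0 : ℝ)..a, r ^ (N - 1) *
      (dph N L 1 r ^ 2 + ((N : ℝ) - 1) * q r ^ 2 - L * ph N L 1 r ^ 2) =
      a ^ (N - 1) * (dph N L 1 a * ph N L 1 a) := by
    have hc1 : Continuous (ph N L 1) := (hph2 1).1.continuous
    have hc2 : Continuous (dph N L 1) := (hph2 1).2.continuous
    have hder : ∀ r ∈ Ioo 0 a, HasDerivAt (fun r => r ^ (N - 1) * dph N L 1 r * ph N L 1 r)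
        (r ^ (N - 1) * (dph N L 1 r ^ 2 + ((N : ℝ) - 1) * q r ^ 2 - L * ph N L 1 r ^ 2)) r := by
      intro r hr
      have h1 := (hph3 1 r hr.1).mul (hph1 1 r)
      refine h1.congr_deriv ?_
      have hr0 : r ≠ 0 := hr.1.ne'
      rw [hphq r]
      push_cast
      field_simp
      ring
    have := intervalIntegral.integral_eq_sub_of_hasDerivAt_of_le ha.le
      (f := fun r => r ^ (N - 1) * dph N L 1 r * ph N L 1 r) (by fun_prop) hder
      (Continuous.intervalIntegrable (by fun_prop) _ _)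
    rw [this]
    have h0 : (0 : ℝ) ^ (N - 1) = 0 := zero_pow (by omega)
    rw [h0]
    ring
  rw [mc3, mc1]
  congr 1
  have e2 : ∀ r : ℝ, r ^ (N - 1) * av (rs g r) = ‖T‖ ^ 2 / N * (r ^ (N - 1) *
      (dph N L 1 r ^ 2 + ((N : ℝ) - 1) * q r ^ 2 - L * ph N L 1 r ^ 2)) := by
    intro r
    rw [havg r]; ring
  simp only [e2]
  rw [intervalIntegral.integral_const_mul, hF0]
  ring

end Pool.Agent.H86.LQ1
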