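import Pool.Agent.H69.LQ.Lib
import Pool.Agent.H69.LQ.Targets1

set_option autoImplicit false

open MeasureTheory Metric Set
open scoped ENNReal
open Pool.Agent.H85.LK (E adm lam Ann)
open Pool.Agent.H69.LQ

namespace Pool.Agent.H86.LQ1

theorem XI_pd {N : ℕ} (j : Fin N) (g h : E N → ℝ) (x : E N) (hg : ContDiff ℝ (⊤ : ℕ∞) g)
    (hh : ContDiff ℝ (⊤ : ℕ∞) h) :
    pd j (fun x => g x * h x) x = pd j g x * h x + g x * pd j h x := by
  have dg : DifferentiableAt ℝ g x := (hg.differentiable (by simp)) x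
  have dh : DifferentiableAt ℝ h x := (hh.differentiable (by simp)) x
  unfold pd
  have e : fderiv ℝ (fun x => g x * h x) x = g x • fderiv ℝ h x + h x • fderiv ℝ g x :=
    fderiv_fun_mul dg dh
  rw [e]
  simp only [add_apply, smul_apply, smul_eq_mul]
  ring

theorem XI_pd_le {N : ℕ} (j : Fin N) (g : E N → ℝ) (x : E N) : |pd j g x| ≤ ‖fderiv ℝ g x‖ := by
  unfold pd
  have h := (fderiv ℝ g x).le_opNorm (EuclideanSpace.single j (1 : ℝ))
  rw [PiLp.norm_single, norm_one, mul_one, Real.norm_eq_abs] at h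
  exact h

theorem pf_XI (hCU : T_CU) (hK2 : T_K2) (hK3 : T_K3) (hK4 : T_K4) (hK5 : T_K5) : T_XI := by
  intro N r₀ r₂ s hN hr₀ hr₂ hr₂1 hs
  obtain ⟨χ, η, hχ, -, hsq, hnn, h1, h0, M, hM⟩ := hCU N (2 * r₀) ((2 * r₀ + r₂) / 2) hN
    (by linarith) (by linarith)
  obtain ⟨C₀, hC₀, hK⟩ := hK5 N hN
  have hNpos : (0 : ℝ) < N := by exact_mod_cast (by omega : 0 < N)
  set ρ₁ : ℝ := s / (2 * N * C₀ ^ 2) with hρ₁
  have hρ₁0 : 0 < ρ₁ := by positivity
  set B : ℝ := Real.sqrt M * (C₀ / (r₀ / 2) ^ (N - 1)) with hB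
  have hB0 : 0 ≤ B := by positivity
  refine ⟨ρ₁ ^ N, (N + 2) * B + 1, by positivity, by positivity, fun f hf hf01 hfs hfκ => ?_⟩
  have hcs : HasCompactSupport f := by
    refine HasCompactSupport.intro (isCompact_closedBall (0 : E N) (3 / 2 * r₀)) fun x hx => ?_
    apply hfs
    rw [mem_closedBall_zero_iff, not_le] at hx
    exact hx.le
  obtain ⟨k1, k2, k3⟩ := hK f hf hcs hf01
  have hI0 : 0 ≤ ∫ y, f y := integral_nonneg fun x => (hf01 x).1
  set I := ∫ y, f y with hI
  have hVs : ∀ i, ContDiff ℝ (⊤ : ℕ∞) (KV f i) := fun i => (hK2 N f i hN hf hcs).1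
  have hfx : ∀ x, f x ≠ 0 → ‖x‖ < 3 / 2 * r₀ := by
    intro x hx
    by_contra hcon
    exact hx (hfs x (not_lt.mp hcon))
  have hfd : ∀ x : E N, ‖x‖ < 2 * r₀ → fderiv ℝ χ x = 0 := by
    intro x hx
    have he : χ =ᶠ[nhds x] fun _ => (1 : ℝ) := by
      have hopen : {y : E N | ‖y‖ < 2 * r₀} ∈ nhds x :=
        (isOpen_lt continuous_norm continuous_const).mem_nhds hx
      filter_upwards [hopen] with y hy
      exact (h1 y (le_of_lt hy)).1
    rw [he.fderiv_eq]
    simp
  have hfdb : ∀ x : E N, ‖fderiv ℝ χ x‖ ≤ Real.sqrt M := by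
    intro x
    apply Real.le_sqrt_of_sq_le
    have := hM x
    have h2 : 0 ≤ ‖fderiv ℝ η x‖ ^ 2 := sq_nonneg _
    linarith
  have key : ∀ (i j : Fin N) (x : E N), |pd j χ x * KV f i x| ≤ B * I := by
    intro i j x
    by_cases hx : ‖x‖ < 2 * r₀
    · have : pd j χ x = 0 := by unfold pd; rw [hfd x hx]; simp
      rw [this, zero_mul, abs_zero]
      positivity
    · have hx' := not_lt.mp hx
      have h2 := k2 i x (r₀ / 2) (by linarith) (fun y hy => by
        have h3 := hfx y hy
        have h4 : ‖x‖ ≤ ‖x - y‖ + ‖y‖ := by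
          have := norm_add_le (x - y) y
          rwa [sub_add_cancel] at this
        linarith)
      rw [abs_mul]
      calc |pd j χ x| * |KV f i x| ≤ Real.sqrt M * (C₀ * (I / (r₀ / 2) ^ (N - 1))) :=
            mul_le_mul ((XI_pd_le j χ x).trans (hfdb x)) h2 (abs_nonneg _) (Real.sqrt_nonneg _)
        _ = B * I := by rw [hB]; ring
  have hpd : ∀ (i j : Fin N) (x : E N), pd j (fun x => χ x * KV f i x) x =
      pd j χ x * KV f i x + χ x * pd j (KV f i) x := fun i j x => XI_pd j χ _ x hχ (hVs i)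
  have hdv : ∀ x, dv (fun i x => χ x * KV f i x) x - f x = ∑ i, pd i χ x * KV f i x := by
    intro x
    have e1 : dv (fun i x => χ x * KV f i x) x =
        (∑ i, pd i χ x * KV f i x) + χ x * dv (KV f) x := by
      unfold dv
      rw [Finset.mul_sum, ← Finset.sum_add_distrib]
      exact Finset.sum_congr rfl fun i _ => hpd i i x
    rw [e1, hK3 N f x hN hf hcs]
    have e2 : χ x * f x = f x := by
      by_cases hx : f x = 0
      · rw [hx, mul_zero]
      · rw [(h1 x (by have := hfx x hx; linarith)).1, one_mul]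
    rw [e2]; ring
  refine ⟨fun i x => χ x * KV f i x, fun i => ⟨hχ.mul (hVs i), fun x hx => ?_⟩, fun x => ?_,
    fun x => ?_, fun i j x => ?_, ?_⟩
  · show χ x * KV f i x = 0
    rw [(h0 x hx).1, zero_mul]
  · rw [hdv]
    calc |∑ i, pd i χ x * KV f i x| ≤ ∑ i, |pd i χ x * KV f i x| := Finset.abs_sum_le_sum_abs _ _
      _ ≤ ∑ _i : Fin N, B * I := Finset.sum_le_sum fun i _ => key i i x
      _ = N * (B * I) := by rw [Finset.sum_const, Finset.card_univ, Fintype.card_fin, nsmul_eq_mul]
      _ ≤ ((N + 2) * B + 1) * I := by nlinarith [mul_nonneg hB0 hI0]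
  · by_cases hx : f x = 0
    · rw [hx, mul_zero]
    · rw [hdv]
      have h3 := hfx x hx
      have h2 : ∑ i, pd i χ x * KV f i x = 0 := by
        apply Finset.sum_eq_zero
        intro i _
        have : pd i χ x = 0 := by unfold pd; rw [hfd x (by linarith)]; simp
        rw [this, zero_mul]
      rw [h2, zero_mul]
  · have e : cu (fun i x => χ x * KV f i x) i j x = pd i χ x * KV f j x - pd j χ x * KV f i x := by
      unfold cu
      rw [hpd j i x, hpd i j x, hK4 N f x i j hN hf hcs]
      ring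
    rw [e]
    have a1 := key j i x
    have a2 := key i j x
    have a3 := abs_sub (pd i χ x * KV f j x) (pd j χ x * KV f i x)
    have a4 : 0 ≤ (N : ℝ) * (B * I) := by positivity
    nlinarith [mul_nonneg hB0 hI0]
  · have hone : ∀ i, ∫ x, (χ x * KV f i x) ^ 2 ≤ s / N * I := by
      intro i
      have e1 : ∫ x, (χ x * KV f i x) ^ 2 = ∫ x in ball (0 : E N) 1, (χ x * KV f i x) ^ 2 := by
        symm
        apply setIntegral_eq_integral_of_forall_compl_eq_zero
        intro x hx
        rw [mem_ball_zero_iff, not_lt] at hx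
        rw [(h0 x (by linarith)).1, zero_mul]
        norm_num
      rw [e1]
      have hcV : Continuous (KV f i) := (hVs i).continuous
      have hcχ : Continuous χ := hχ.continuous
      have hint1 : IntegrableOn (fun x => (χ x * KV f i x) ^ 2) (ball (0 : E N) 1) := by
        have hc : Continuous (fun x => (χ x * KV f i x) ^ 2) := by fun_prop
        exact (hc.continuousOn.integrableOn_compact (isCompact_closedBall (0 : E N) 1)).mono_set
          ball_subset_closedBall
      have hint2 : IntegrableOn (fun x => |KV f i x|) (ball (0 : E N) 1) := by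
        have hc : Continuous (fun x => |KV f i x|) := by fun_prop
        exact (hc.continuousOn.integrableOn_compact (isCompact_closedBall (0 : E N) 1)).mono_set
          ball_subset_closedBall
      have hbd : ∀ x, |KV f i x| ≤ C₀ * (2 * ρ₁) := by
        intro x
        refine (k1 i x ρ₁ hρ₁0).trans ?_
        apply mul_le_mul_of_nonneg_left _ hC₀.le
        have : I / ρ₁ ^ (N - 1) ≤ ρ₁ := by
          rw [div_le_iff₀ (by positivity)]
          refine hfκ.trans (le_of_eq ?_)
          rw [← pow_succ']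
          congr 1
          omega
        linarith
      have hpt : ∀ x, (χ x * KV f i x) ^ 2 ≤ C₀ * (2 * ρ₁) * |KV f i x| := by
        intro x
        have g1 : χ x ^ 2 ≤ 1 := by
          have := hsq x
          nlinarith [sq_nonneg (η x)]
        have g2 : KV f i x ^ 2 = |KV f i x| * |KV f i x| := by rw [← sq, sq_abs]
        calc (χ x * KV f i x) ^ 2 = χ x ^ 2 * KV f i x ^ 2 := by ring
          _ ≤ 1 * KV f i x ^ 2 := mul_le_mul_of_nonneg_right g1 (sq_nonneg _)
          _ = |KV f i x| * |KV f i x| := by rw [one_mul, g2]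
          _ ≤ C₀ * (2 * ρ₁) * |KV f i x| := mul_le_mul_of_nonneg_right (hbd x) (abs_nonneg _)
      calc ∫ x in ball (0 : E N) 1, (χ x * KV f i x) ^ 2
          ≤ ∫ x in ball (0 : E N) 1, C₀ * (2 * ρ₁) * |KV f i x| :=
            setIntegral_mono hint1 (hint2.const_mul _) hpt
        _ = C₀ * (2 * ρ₁) * ∫ x in ball (0 : E N) 1, |KV f i x| := by
            rw [integral_const_mul]
        _ ≤ C₀ * (2 * ρ₁) * (C₀ * I) := by
            apply mul_le_mul_of_nonneg_left _ (by positivity)
            exact k3 (fun x hx => hfs x (by linarith)) i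
        _ = s / N * I := by
            rw [hρ₁]
            field_simp
    calc ∑ i, ∫ x, (χ x * KV f i x) ^ 2 ≤ ∑ _i : Fin N, s / N * I :=
          Finset.sum_le_sum fun i _ => hone i
      _ = s * I := by
          rw [Finset.sum_const, Finset.card_univ, Fintype.card_fin, nsmul_eq_mul]
          field_simp

end Pool.Agent.H86.LQ1
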